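import Pool.Agent.Helper12.D4.Jb

/-!
# Project D4: algebraically independent functions, the dual frame
-/

set_option autoImplicit false

namespace Pool.Agent.Helper12.D4

open Pool.Agent.Helper88.D4 MvPolynomial

variable {K : Type} [Field K] [Algebra ℂ K] {J : Bra K}

/-! ## derivations which kill a transcendence basis -/

/-- A derivation which kills the elements of a subfield kills the algebraic elements. -/
theorem der_alg (D : Derivation ℂ K K) (F : IntermediateField ℂ K) (hF : ∀ x ∈ F, D x = 0)
    [Algebra.IsAlgebraic F K] : D = 0 := by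
  haveI : CharZero K := char0 K
  haveI : CharZero F := charZero_of_injective_algebraMap (algebraMap ℂ F).injective
  ext x
  have halg : IsAlgebraic F x := Algebra.IsAlgebraic.isAlgebraic x
  have hint : IsIntegral F x := halg.isIntegral
  let D' : Derivation F K K :=
    { toFun := D
      map_add' := D.map_add
      map_smul' := fun a y => by
        have h1 : (a • y : K) = (a : K) * y := rfl
        have h2 : (a • D y : K) = (a : K) * D y := rfl
        rw [RingHom.id_apply, h1, h2, Derivation.leibniz, hF _ a.2, smul_zero, add_zero,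
          smul_eq_mul]
      map_one_eq_zero' := D.map_one_eq_zero
      leibniz' := D.leibniz }
  have h1 : D' (Polynomial.aeval x (minpoly F x)) =
      Polynomial.aeval x (Polynomial.derivative (minpoly F x)) • D' x :=
    D'.map_aeval (minpoly F x) x
  rw [minpoly.aeval, map_zero] at h1
  have hsep : (minpoly F x).Separable := (minpoly.irreducible hint).separable
  have h2 : Polynomial.aeval x (Polynomial.derivative (minpoly F x)) ≠ 0 :=
    hsep.aeval_derivative_ne_zero (minpoly.aeval F x)
  have h3 : D' x = 0 := (smul_eq_zero.1 h1.symm).resolve_left h2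
  exact h3

theorem inv_der (D : Derivation ℂ K K) {x : K} (hx : D x = 0) : D x⁻¹ = 0 := by
  rcases eq_or_ne x 0 with rfl | h0
  · rw [inv_zero, map_zero]
  · have := quot D 1 x h0
    rw [hx, D.map_one_eq_zero, mul_zero, mul_zero, sub_zero, zero_div, one_div] at this
    exact this

/-- the field of constants of a derivation -/
def cstField (D : Derivation ℂ K K) : IntermediateField ℂ K where
  carrier := {x | D x = 0}
  mul_mem' := fun {a b} ha hb => by
    change D (a * b) = 0
    rw [Derivation.leibniz, show D a = 0 from ha, show D b = 0 from hb, smul_zero, smul_zero,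
      add_zero]
  add_mem' := fun {a b} ha hb => by
    change D (a + b) = 0
    rw [map_add, show D a = 0 from ha, show D b = 0 from hb, add_zero]
  algebraMap_mem' := fun r => D.map_algebraMap r
  inv_mem' := fun x hx => inv_der D hx

theorem basis_of_indep {n : ℕ} {z : Fin n → K} (hz : AlgebraicIndependent ℂ z)
    (ht : Algebra.trdeg ℂ K = n) : IsTranscendenceBasis ℂ z := by
  apply hz.isTranscendenceBasis_of_trdeg_le_of_finite
  rw [ht, Cardinal.mk_fin]

/-- A derivation which kills a transcendence basis is zero. -/
theorem der_zero {n : ℕ} {z : Fin n → K} (hz : AlgebraicIndependent ℂ z)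
    (ht : Algebra.trdeg ℂ K = n) (D : Derivation ℂ K K) (h : ∀ i, D (z i) = 0) : D = 0 := by
  have hb := basis_of_indep hz ht
  haveI := hb.isAlgebraic_field
  apply der_alg D (IntermediateField.adjoin ℂ (Set.range z))
  have hle : IntermediateField.adjoin ℂ (Set.range z) ≤ cstField D := by
    rw [IntermediateField.adjoin_le_iff]
    rintro _ ⟨i, rfl⟩
    exact h i
  intro x hx
  exact hle hx

/-! ## alternating maps which are derivations in each argument -/

/-- An alternating function which is a derivation in each argument is zero if it is zero at a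
transcendence basis. -/
theorem key {n : ℕ} {z : Fin n → K} (hz : AlgebraicIndependent ℂ z)
    (ht : Algebra.trdeg ℂ K = n) (F : (Fin n → K) → K)
    (ha : ∀ f i, ∃ D : Derivation ℂ K K, ∀ x, F (Function.update f i x) = D x)
    (hb : ∀ f i j, i ≠ j → f i = f j → F f = 0) (hc : F z = 0) : ∀ f, F f = 0 := by
  classical
  let A : K [⋀^Fin n]→ₗ[ℂ] K :=
    { toFun := F
      map_update_add' := fun {inst} f i x y => by
        have hi : inst = instDecidableEqFin n := Subsingleton.elim _ _
        subst hi
        obtain ⟨D, hD⟩ := ha f i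
        rw [hD, hD, hD, map_add]
      map_update_smul' := fun {inst} f i c x => by
        have hi : inst = instDecidableEqFin n := Subsingleton.elim _ _
        subst hi
        obtain ⟨D, hD⟩ := ha f i
        rw [hD, hD, Derivation.map_smul]
      map_eq_zero_of_eq' := fun f i j hij hne => hb f i j hne hij }
  have hA : ∀ f, A f = F f := fun f => rfl
  have h0 : ∀ σ : Fin n → Fin n, F (fun i => z (σ i)) = 0 := by
    intro σ
    by_cases hσ : Function.Injective σ
    · let τ : Equiv.Perm (Fin n) := Equiv.ofBijective σ (Finite.injective_iff_bijective.1 hσ)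
      have h1 := A.map_perm z τ
      have h2 : (fun i => z (σ i)) = z ∘ τ := rfl
      rw [← hA, h2, h1, hA, hc, smul_zero]
    · rw [Function.Injective] at hσ
      push Not at hσ
      obtain ⟨i, j, hij, hne⟩ := hσ
      exact hb _ i j hne (congrArg z hij)
  have h1 : ∀ m : ℕ, ∀ f : Fin n → K, (∀ i : Fin n, m ≤ i → ∃ j, f i = z j) → F f = 0 := by
    intro m
    induction m with
    | zero =>
      intro f hf
      choose σ hσ using fun i => hf i (Nat.zero_le _)
      have : f = fun i => z (σ i) := funext hσ
      rw [this]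
      exact h0 σ
    | succ m ih =>
      intro f hf
      by_cases hm : m < n
      · obtain ⟨D, hD⟩ := ha f ⟨m, hm⟩
        have hD0 : D = 0 := by
          apply der_zero hz ht
          intro l
          rw [← hD]
          apply ih
          intro i hi
          by_cases him : i = ⟨m, hm⟩
          · subst him
            exact ⟨l, by rw [Function.update_self]⟩
          · rw [Function.update_of_ne him]
            apply hf
            have : (i : ℕ) ≠ m := fun h => him (Fin.ext h)
            omega
        have := hD (f ⟨m, hm⟩)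
        rw [Function.update_eq_self, hD0, Derivation.zero_apply] at this
        exact this
      · apply ih
        intro i hi
        exact absurd i.2 (by omega)
  intro f
  exact h1 n f (fun i hi => absurd i.2 (by omega))

/-! ## relations of minimal degree -/

theorem totalDegree_pderiv_lt {σ : Type*} {P : MvPolynomial σ ℂ} {i : σ} (h : pderiv i P ≠ 0) :
    (pderiv i P).totalDegree < P.totalDegree := by
  classical
  have h1 : ∀ m ∈ (pderiv i P).support, (m.sum fun _ e => e) + 1 ≤ P.totalDegree := by
    intro m hm
    rw [mem_support_iff, coeff_pderiv] at hm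
    have h2 : m + Finsupp.single i 1 ∈ P.support := by
      rw [mem_support_iff]
      exact left_ne_zero_of_mul hm
    have h3 := le_totalDegree h2
    rw [Finsupp.sum_add_index' (fun _ => rfl) (fun _ _ _ => rfl), Finsupp.sum_single_index rfl]
      at h3
    exact h3
  obtain ⟨m, hm⟩ := support_nonempty.2 h
  have h4 : 0 < P.totalDegree := lt_of_lt_of_le (Nat.succ_pos _) (h1 m hm)
  rw [totalDegree, Finset.sup_lt_iff h4]
  intro m hm
  exact h1 m hm

theorem eq_C_of_pderiv {σ : Type*} {P : MvPolynomial σ ℂ} (h : ∀ i, pderiv i P = 0) :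
    P = C (coeff 0 P) := by
  classical
  ext m
  rw [coeff_C]
  by_cases hm : m = 0
  · rw [if_pos hm.symm, hm]
  · rw [if_neg (Ne.symm hm)]
    obtain ⟨i, hi⟩ := Finsupp.ne_iff.1 hm
    have hi' : 1 ≤ m i := Nat.one_le_iff_ne_zero.2 hi
    have h1 := coeff_pderiv (i := i) P (m - Finsupp.single i 1)
    rw [h i, coeff_zero] at h1
    have h2 : m - Finsupp.single i 1 + Finsupp.single i 1 = m := by
      apply tsub_add_cancel_of_le
      rw [Finsupp.single_le_iff]
      exact hi'
    rw [h2] at h1
    rcases mul_eq_zero.1 h1.symm with h3 | h3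
    · exact h3
    · exfalso
      have h4 : (((m - Finsupp.single i 1 : σ →₀ ℕ) i + 1 : ℕ) : ℂ) = 0 := by
        push_cast
        exact h3
      exact absurd (Nat.cast_eq_zero.1 h4) (Nat.succ_ne_zero _)

/-- Functions with a nonzero bracket are algebraically independent. -/
theorem indep_of_brk (h : IsAlt J) {z : Fin 4 → K} (hz : brk J z ≠ 0) :
    AlgebraicIndependent ℂ z := by
  rw [algebraicIndependent_iff]
  have h1 : ∀ n : ℕ, ∀ P : MvPolynomial (Fin 4) ℂ, P.totalDegree ≤ n → aeval z P = 0 → P = 0 := by
    intro n
    induction n using Nat.strong_induction_on with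
    | _ n ih =>
      intro P hP hz0
      have h2 : ∀ i, pderiv i P = 0 := by
        intro i
        by_contra hne
        have h3 := totalDegree_pderiv_lt hne
        obtain ⟨D, hD⟩ := brk_update h z i
        have h4 := chain D z P
        rw [hz0, map_zero] at h4
        have h5 : ∀ j, D (z j) = if j = i then brk J z else 0 := by
          intro j
          rw [← hD]
          by_cases hj : j = i
          · subst hj
            rw [if_pos rfl, Function.update_eq_self]
          · rw [if_neg hj]
            apply brk_zero h _ i j (Ne.symm hj)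
            rw [Function.update_self, Function.update_of_ne hj]
        simp only [h5, mul_ite, mul_zero, Finset.sum_ite_eq', Finset.mem_univ, if_true] at h4
        have h6 : aeval z (pderiv i P) = 0 := (mul_eq_zero.1 h4.symm).resolve_right hz
        exact hne (ih (pderiv i P).totalDegree (lt_of_lt_of_le h3 hP) _ le_rfl h6)
      have h7 := eq_C_of_pderiv h2
      rw [h7, ← algebraMap_eq, AlgHom.commutes] at hz0
      have h8 : coeff 0 P = 0 := (algebraMap ℂ K).injective (by rw [hz0, map_zero])
      rw [h7, h8, C_0]
  intro P hP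
  exact h1 _ P le_rfl hP

/-- Algebraically independent functions have a nonzero bracket. -/
theorem brk_of_indep (h : IsAlt J) (ht : Algebra.trdeg ℂ K = 4) {z : Fin 4 → K}
    (hz : AlgebraicIndependent ℂ z) : brk J z ≠ 0 := by
  intro h0
  have h1 := key hz (n := 4) (by rw [ht]; rfl) (brk J) (brk_update h) (brk_zero h) h0
  obtain ⟨x, y, z', w, hne⟩ := h.ne
  apply hne
  have := h1 ![x, y, z', w]
  rwa [brk_apply] at this

/-! ## the dual frame -/

theorem dfr_apply (h : IsAlt J) {z : Fin 4 → K} (hz : brk J z ≠ 0) (i j : Fin 4) :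
    dfr J z i (z j) = if i = j then 1 else 0 := by
  have hb : brk J z = J (z 1) (z 2) (z 3) (z 0) := rfl
  have h1 : J (z 0) (z 2) (z 3) (z 1) = -brk J z := by
    rw [hb, l1 h (z 0) (z 1) (z 2) (z 3), neg_neg]
  have h2 : J (z 0) (z 1) (z 3) (z 2) = brk J z := (l2 h (z 0) (z 1) (z 2) (z 3)).symm
  have h3 : J (z 0) (z 1) (z 2) (z 3) = -brk J z := by
    rw [hb, l3 h (z 0) (z 1) (z 2) (z 3), neg_neg]
  fin_cases i <;> fin_cases j <;> simp only [dfr, Fin.zero_eta, Fin.mk_one, Fin.reduceFinMk,
    Matrix.cons_val, Derivation.smul_apply, smul_eq_mul, Fin.isValue]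
  all_goals first
    | (rw [z01 h, mul_zero]; rfl)
    | (rw [z02 h, mul_zero]; rfl)
    | (rw [z03 h, mul_zero]; rfl)
    | (rw [h1, neg_mul_neg, inv_mul_cancel₀ hz]; rfl)
    | (rw [h2, inv_mul_cancel₀ hz]; rfl)
    | (rw [h3, neg_mul_neg, inv_mul_cancel₀ hz]; rfl)
    | (rw [← hb, inv_mul_cancel₀ hz]; rfl)

theorem der_sum {ι : Type*} (s : Finset ι) (D : ι → Derivation ℂ K K) (x : K) :
    (∑ i ∈ s, D i) x = ∑ i ∈ s, D i x := by
  classical
  induction s using Finset.induction_on with
  | empty => rw [Finset.sum_empty, Finset.sum_empty, Derivation.zero_apply]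
  | insert a s ha ih => rw [Finset.sum_insert ha, Finset.sum_insert ha, Derivation.add_apply, ih]

theorem dfr_sum (h : IsAlt J) (ht : Algebra.trdeg ℂ K = 4) {z : Fin 4 → K} (hz : brk J z ≠ 0)
    (E : Derivation ℂ K K) : E = ∑ i, E (z i) • dfr J z i := by
  have h0 : E - ∑ i, E (z i) • dfr J z i = 0 := by
    apply der_zero (n := 4) (indep_of_brk h hz) (by rw [ht]; rfl)
    intro j
    rw [Derivation.sub_apply, sub_eq_zero, der_sum]
    rw [Finset.sum_eq_single j]
    · rw [Derivation.smul_apply, dfr_apply h hz, if_pos rfl, smul_eq_mul, mul_one]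
    · intro i _ hij
      rw [Derivation.smul_apply, dfr_apply h hz, if_neg hij, smul_zero]
    · intro hj
      exact absurd (Finset.mem_univ j) hj
  exact sub_eq_zero.1 h0

theorem cst_of_algebraic {x : K} (hx : IsAlgebraic ℂ x) : Cst x := by
  have hint : IsIntegral ℂ x := hx.isIntegral
  have hd : (minpoly ℂ x).degree = 1 :=
    IsAlgClosed.degree_eq_one_of_irreducible ℂ (minpoly.irreducible hint)
  obtain ⟨t, ht⟩ := minpoly.mem_range_of_degree_eq_one ℂ x hd
  exact ⟨t, ht.symm⟩

/-- A function which is not constant belongs to a transcendence basis. -/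
theorem exists_basis {n : ℕ} (hn : 0 < n) (ht : Algebra.trdeg ℂ K = n) {x : K} (hx : ¬ Cst x) :
    ∃ z : Fin n → K, AlgebraicIndependent ℂ z ∧ z ⟨0, hn⟩ = x := by
  have htr : Transcendental ℂ x := fun h => hx (cst_of_algebraic h)
  have h1 : AlgebraicIndepOn ℂ id ({x} : Set K) := by
    have := (algebraicIndependent_unique_type_iff (ι := ({x} : Set K)) (R := ℂ)
      (x := fun y : ({x} : Set K) => (y : K))).2 (by simpa using htr)
    exact this
  obtain ⟨t, hst, hbt⟩ := exists_isTranscendenceBasis_superset h1
  have hcard : Cardinal.mk t = n := by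
    have := hbt.cardinalMk_eq_trdeg
    rw [this, ht]
  have hfin : Finite t := by
    rw [← Cardinal.lt_aleph0_iff_finite, hcard]
    exact Cardinal.natCast_lt_aleph0
  letI : Fintype t := Fintype.ofFinite t
  have hc : Fintype.card t = n := by
    have := Cardinal.mk_fintype t
    rw [hcard] at this
    exact_mod_cast this.symm
  let e : Fin n ≃ t := (Fintype.equivFinOfCardEq hc).symm
  let i0 : Fin n := e.symm ⟨x, hst rfl⟩
  let e' : Fin n ≃ t := (Equiv.swap ⟨0, hn⟩ i0).trans e
  refine ⟨fun i => (e' i : K), ?_, ?_⟩
  · have := hbt.1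
    exact this.comp e' e'.injective
  · change ((e (Equiv.swap ⟨0, hn⟩ i0 ⟨0, hn⟩) : t) : K) = x
    rw [Equiv.swap_apply_left, Equiv.apply_symm_apply]

/-- **S_AI** -/
theorem s_AI : S_AI := by
  intro K _ _ J ht h
  refine ⟨fun z => ⟨brk_of_indep h ht, indep_of_brk h⟩, fun z hz => ⟨dfr_apply h hz,
    dfr_sum h ht hz⟩, ?_⟩
  intro x hx
  obtain ⟨z, hz, h0⟩ := exists_basis (n := 4) (by norm_num) (by rw [ht]; rfl) hx
  refine ⟨z 1, z 2, z 3, ?_⟩
  have := brk_of_indep h ht hz
  rw [brk] at this
  have h0' : z 0 = x := h0
  rwa [h0'] at this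

/-! ## all 4-forms are proportional -/

theorem dt_update (D : Fin 4 → Derivation ℂ K K) (f : Fin 4 → K) (i : Fin 4) :
    ∃ E : Derivation ℂ K K, ∀ x, dt D (Function.update f i x) = E x := by
  classical
  refine ⟨∑ k, ((Matrix.of fun a b => D a (f b)).cramer (Pi.single k 1) i) • D k, ?_⟩
  intro x
  have h1 : (Matrix.of fun a b => D a (Function.update f i x b)) =
      (Matrix.of fun a b => D a (f b)).updateCol i (fun k => D k x) := by
    ext a b
    rw [Matrix.updateCol_apply, Matrix.of_apply, Matrix.of_apply]
    by_cases hb : b = i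
    · subst hb
      rw [Function.update_self, if_pos rfl]
    · rw [Function.update_of_ne hb, if_neg hb]
  have h2 : (fun k => D k x) = ∑ k, D k x • (Pi.single k 1 : Fin 4 → K) := by
    ext j
    simp [Finset.sum_apply, Pi.single_apply]
  rw [dt, h1, ← Matrix.cramer_apply, h2, map_sum, Finset.sum_apply, der_sum]
  apply Finset.sum_congr rfl
  intro k _
  rw [map_smul, Pi.smul_apply, smul_eq_mul, Derivation.smul_apply, smul_eq_mul, mul_comm]

theorem dt_zero (D : Fin 4 → Derivation ℂ K K) (f : Fin 4 → K) (i j : Fin 4) (hij : i ≠ j)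
    (he : f i = f j) : dt D f = 0 := by
  rw [dt]
  apply Matrix.det_zero_of_column_eq hij
  intro k
  rw [Matrix.of_apply, Matrix.of_apply, he]

/-- **S_JD** -/
theorem s_JD : S_JD := by
  intro K _ _ J ht h D f g
  obtain ⟨x, y, z', w, hne⟩ := h.ne
  have hz : brk J ![x, y, z', w] ≠ 0 := by rwa [brk_apply]
  generalize ![x, y, z', w] = z at hz
  have h1 : ∀ f, brk J f * dt D z - brk J z * dt D f = 0 := by
    apply key (n := 4) (indep_of_brk h hz) (by rw [ht]; rfl)
      (fun f => brk J f * dt D z - brk J z * dt D f)
    · intro f i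
      obtain ⟨D1, hD1⟩ := brk_update h f i
      obtain ⟨D2, hD2⟩ := dt_update D f i
      refine ⟨dt D z • D1 - brk J z • D2, fun x => ?_⟩
      rw [hD1, hD2, Derivation.sub_apply, Derivation.smul_apply, Derivation.smul_apply,
        smul_eq_mul, smul_eq_mul]
      ring
    · intro f i j hij he
      change brk J f * dt D z - brk J z * dt D f = 0
      rw [brk_zero h f i j hij he, dt_zero D f i j hij he]
      ring
    · change brk J z * dt D z - brk J z * dt D z = 0
      ring
  have h2 := h1 f
  have h3 := h1 g
  apply mul_left_cancel₀ hz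
  linear_combination (brk J g) * h2 - (brk J f) * h3

end Pool.Agent.Helper12.D4
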