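import Pool.Agent.Helper88.D4.FmQ
import Pool.Agent.Helper76.D4.Stmts7

/-!
# Project D4 (MP_e1889a_ag), stage 7: closed 2-forms (assembly)
-/

set_option autoImplicit false

namespace Pool.Agent.Helper12.D4

open Module Filter Topology Pool.Agent.Helper37.SD Pool.Agent.Helper20.TS
open Pool.Agent.Helper88.D4 Pool.Agent.Helper76.D4

variable {K : Type} [Field K] [Algebra ℂ K]

/-- closed 2-forms -/
theorem s_FMX (hFMQ : S_FMQ) (hKER : S_KER) (hXI : S_XIx) (hL1 : S_L1x) (hJET : S_JET) :
    S_FMX := by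
  intro K _ _ R ξ J v a V hC hM hX' ω k hreg hcl hhom hω
  rcases hX' with hX | hX
  · exact hFMQ K R ξ J v a V hC hM hX ω k hreg hcl hhom hω
  have hFG : FGen R ξ := Pool.Agent.Helper76.D4.s_CF K R ξ hC.toIsCone hC.normal hX
  by_contra hlt
  have hk : 2 * k < a := lt_of_not_ge hlt
  have ha := hM.apos
  have hpf := pf_zero t_PF hC hreg hhom hk
  obtain ⟨r, H, c, e, hT, -, -, -⟩ := Pool.Agent.Helper79.D4.s_R1s K R ξ hC.toIsCone 0
    (fun x _ => by rw [Derivation.zero_apply]; exact R.zero_mem) (by simp)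
  have hr : r = 0 ∨ r = 1 ∨ 2 ≤ r := by omega
  rcases hr with rfl | rfl | hr
  · exact xi_ne hC (by rw [hT.xi]; simp)
  · obtain ⟨hc0, hξ⟩ := tor_one hC hT
    obtain ⟨D, P, hF, hker⟩ := hKER K R ξ J a hC ω k hreg hcl hhom hω hpf
    by_cases hin : ∀ B, ω ξ B = 0
    · have hk0 : k = 0 := weight_of_ker hreg.alt hcl hhom hω hin
      subst hk0
      rw [sub_zero] at hF
      exact hXI K R ξ J v a V H c hC hM hFG hT D P hF ((hker ξ).mp hin)
    · obtain ⟨h, hh, h0, h1, hcst⟩ : ∃ h, ξ h = 0 ∧ D 0 h = 0 ∧ D 1 h = 0 ∧ ¬ Cst h := by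
        by_contra hno
        push Not at hno
        have hδ : 0 < min ((a - k) / 2) ((a - k) - a / 2) := lt_min (by linarith) (by linarith)
        obtain ⟨f, q, M, hq, hdeg, hf0, hfw, hfr, hMq⟩ := hJET K R ξ J v a V H c hC hM hT D
          hF.com hF.inv (fun h h1 h2 h3 => hno h h1 h2 h3) _ hδ
        have h2 := hL1 K R ξ J v a V H c hC hM hT (a - k) D P hF f q M hdeg hf0 hfw hfr
        linarith
      obtain ⟨ω', χ, -, -, -, -, hχ⟩ :=
        Pool.Agent.Helper14.D4.s_T1 K R ξ J a 1 H c hC hT ω k hreg hcl hhom hω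
      have hχ0 : c 0 * χ 0 = k := by simpa using hχ
      have hD0 : ∀ B, ω (D 0) B = 0 := (hker _).mpr ⟨1, 0, by rw [one_smul, zero_smul, add_zero]⟩
      have hD1 : ∀ B, ω (D 1) B = 0 := (hker _).mpr ⟨0, 1, by rw [one_smul, zero_smul, zero_add]⟩
      obtain ⟨b, hb⟩ : ∃ b : K, ∀ E, ω ξ E = b * E h := by
        refine exists_mul hC.trdeg hC.alt (E := ![D 0, D 1, ξ]) ?_ hcst ?_ ?_
        · rw [Fintype.linearIndependent_iff]
          intro g hg
          rw [Fin.sum_univ_three] at hg
          change g 0 • D 0 + g 1 • D 1 + g 2 • ξ = 0 at hg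
          have hg2 : g 2 = 0 := by
            by_contra hne
            apply hin
            refine (hker ξ).mpr ⟨-(g 2)⁻¹ * g 0, -(g 2)⁻¹ * g 1, ?_⟩
            have e1 : ξ = (g 2)⁻¹ • (g 2 • ξ) := by rw [smul_smul, inv_mul_cancel₀ hne, one_smul]
            have e2 : g 2 • ξ = -(g 0 • D 0 + g 1 • D 1) := by
              rw [eq_neg_iff_add_eq_zero, add_comm]
              exact hg
            conv_lhs => rw [e1, e2]
            rw [smul_neg, smul_add, smul_smul, smul_smul, neg_mul, neg_mul, neg_smul, neg_smul,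
              neg_add]
          rw [hg2, zero_smul, add_zero] at hg
          obtain ⟨hg0, hg1⟩ := hF.ind _ _ hg
          intro i
          fin_cases i
          · exact hg0
          · exact hg1
          · exact hg2
        · intro i
          fin_cases i
          · exact h0
          · exact h1
          · exact hh
        · intro i
          fin_cases i
          · change ω ξ (D 0) = 0
            rw [alt_neg hreg.alt, hD0, neg_zero]
          · change ω ξ (D 1) = 0
            rw [alt_neg hreg.alt, hD1, neg_zero]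
          · exact hreg.alt ξ
      have hHh : ∀ i, H i h = 0 := by
        intro i
        have e1 : ξ h = (c 0 : ℂ) • H 0 h := by
          conv_lhs => rw [hξ]
          rfl
        rw [hh] at e1
        have e2 : H 0 h = 0 := (smul_eq_zero.mp e1.symm).resolve_left hc0
        rw [Subsingleton.elim i 0]
        exact e2
      have hb0 : b ≠ 0 := by
        rintro rfl
        exact hin fun B => by rw [hb, zero_mul]
      have hwt : ∀ E, ξ (ω ξ E) - ω ξ ⁅ξ, E⁆ = (k : ℂ) • ω ξ E := by
        intro E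
        have e1 := hhom ξ E
        have e2 : ω ⁅ξ, ξ⁆ E = 0 := by rw [lie_self, map_zero, LinearMap.zero_apply]
        rwa [e2, sub_zero] at e1
      have hα : Al R ξ H χ (ω ξ) := by
        refine ⟨?_, ?_, ?_, hreg.alt ξ, ?_⟩
        · intro h0
          exact hin fun B => by rw [h0, LinearMap.zero_apply]
        · intro E hE
          exact hreg.reg _ _ hC.toIsCone.pres hE
        · intro i E
          have e1 := hwt E
          rw [Subsingleton.elim i 0]
          have e2 : ξ (ω ξ E) = (c 0 : ℂ) • H 0 (ω ξ E) := by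
            rw [hT.xi_apply]
            simp
          have e3 : ⁅ξ, E⁆ = (c 0 : ℂ) • ⁅H 0, E⁆ := by
            ext y
            rw [Derivation.commutator_apply, hT.xi_apply, hT.xi_apply]
            simp only [Finset.univ_unique, Fin.default_eq_zero, Fin.isValue, Finset.sum_singleton,
              Derivation.map_smul, Derivation.smul_apply, Derivation.commutator_apply, smul_sub]
          have e4 : ω ξ ((c 0 : ℂ) • ⁅H 0, E⁆) = (c 0 : ℂ) • ω ξ ⁅H 0, E⁆ := by
            rw [← algebraMap_smul K (c 0 : ℂ) ⁅H 0, E⁆, map_smul, algebraMap_smul]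
          rw [e2, e3, e4, ← smul_sub, ← hχ0] at e1
          push_cast at e1
          rw [mul_smul] at e1
          exact smul_right_injective K hc0 e1
        · intro A B C
          simp only [dOne, hb]
          simp only [Derivation.leibniz, smul_eq_mul, Derivation.commutator_apply]
          ring
      have h2 := tail (Pool.Agent.Helper51.D4.s_Q Pool.Agent.Helper11.D4.s_EX1
        Pool.Agent.Helper37.D4.s_HF)
        (Pool.Agent.Helper74.D4.s_P Pool.Agent.Helper11.D4.s_EX1 Pool.Agent.Helper11.D4.s_EX2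
          Pool.Agent.Helper46.D4.s_LDfr0 Pool.Agent.Helper37.D4.s_T0 Pool.Agent.Helper37.D4.s_V3
          Pool.Agent.Helper76.D4.s_UN Pool.Agent.Helper76.D4.s_CL Pool.Agent.Helper46.D4.s_REG0)
        Pool.Agent.Helper46.D4.s_Pn0 hC hM (Or.inr hFG) hT hα hHh hcst hb
      rw [hχ] at h2
      linarith
  · exact hlt (fm_lio5 t_FMc Pool.Agent.Helper79.D4.s_R1s
      (Pool.Agent.Helper73.D4.s_R2 Pool.Agent.Helper12.D4.s_AI) Pool.Agent.Helper14.D4.s_T1s
      (Pool.Agent.Helper1.D4.s_T2s t_PF) Pool.Agent.Helper80.D4.s_B1s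
      (Pool.Agent.Helper51.D4.s_Q Pool.Agent.Helper11.D4.s_EX1 Pool.Agent.Helper37.D4.s_HF)
      (Pool.Agent.Helper74.D4.s_P Pool.Agent.Helper11.D4.s_EX1 Pool.Agent.Helper11.D4.s_EX2
        Pool.Agent.Helper46.D4.s_LDfr0 Pool.Agent.Helper37.D4.s_T0 Pool.Agent.Helper37.D4.s_V3
        Pool.Agent.Helper76.D4.s_UN Pool.Agent.Helper76.D4.s_CL Pool.Agent.Helper46.D4.s_REG0)
      Pool.Agent.Helper46.D4.s_Pn0 Pool.Agent.Helper76.D4.s_CF Pool.Agent.Helper14.D4.s_T1 t_B1z
      t_K2 t_T2z hC hM (Or.inr hX) hreg hcl hhom hω (Or.inr ⟨r, H, c, hr, hT⟩))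

end Pool.Agent.Helper12.D4
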