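import Pool.Agent.Helper88.D4.Stmts6

/-!
# Project D4 (MP_e1889a_ag), stage 6: (JET) regular forms of large degree and small weight
-/

set_option autoImplicit false

namespace Pool.Agent.Helper12.D4

open Module Filter Topology Pool.Agent.Helper37.SD Pool.Agent.Helper20.TS
open Pool.Agent.Helper88.D4

section Words

variable {K : Type} [Field K] [Algebra ℂ K]

theorem wd_append (D : Fin 2 → Derivation ℂ K K) (w w' : List (Fin 2)) (x : K) :
    wd D (w ++ w') x = wd D w (wd D w' x) := by
  unfold wd
  rw [List.foldr_append]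

theorem wd_replicate (D : Fin 2 → Derivation ℂ K K) (i : Fin 2) (n : ℕ) (x : K) :
    wd D (List.replicate n i) x = (D i : K → K)^[n] x := by
  induction n with
  | zero => rfl
  | succ n ih =>
    rw [List.replicate_succ, Function.iterate_succ_apply', ← ih]
    rfl

theorem dd_eq_wd (D : Fin 2 → Derivation ℂ K K) (i j : ℕ) (x : K) :
    dd D i j x = wd D (List.replicate i 0 ++ List.replicate j 1) x := by
  rw [wd_append, wd_replicate, wd_replicate]
  rfl

theorem eig_comm {ξ E : Derivation ℂ K K} (h : ⁅ξ, E⁆ = 0) {m : ℝ} {x : K}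
    (hx : ξ x = (m : ℂ) • x) : ξ (E x) = (m : ℂ) • E x := by
  have h1 : ⁅ξ, E⁆ x = 0 := by
    rw [h]
    rfl
  rw [Derivation.commutator_apply] at h1
  rw [sub_eq_zero.mp h1, hx, E.map_smul]

theorem eig_iter {ξ E : Derivation ℂ K K} (h : ⁅ξ, E⁆ = 0) {m : ℝ} (n : ℕ) :
    ∀ {x : K}, ξ x = (m : ℂ) • x → ξ ((E : K → K)^[n] x) = (m : ℂ) • (E : K → K)^[n] x := by
  induction n with
  | zero => exact fun hx => hx
  | succ n ih =>
    intro x hx
    rw [Function.iterate_succ_apply']
    exact eig_comm h (ih hx)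

theorem eig_dd {ξ : Derivation ℂ K K} {D : Fin 2 → Derivation ℂ K K} (h : ∀ i, ⁅ξ, D i⁆ = 0)
    {m : ℝ} (i j : ℕ) {x : K} (hx : ξ x = (m : ℂ) • x) :
    ξ (dd D i j x) = (m : ℂ) • dd D i j x :=
  eig_iter (h 0) i (eig_iter (h 1) j hx)

theorem ge_iter {u : RVal K} {E : Derivation ℂ K K} (h : URg u E) (n : ℕ) {x : K}
    (hx : u.Ge 0 x) : u.Ge 0 ((E : K → K)^[n] x) := by
  induction n with
  | zero => exact hx
  | succ n ih =>
    rw [Function.iterate_succ_apply']
    exact h _ ih

end Words

theorem s_JET (h1 : S_J1) (h2 : S_J2) (h3 : S_J3) : S_JET := by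
  classical
  intro K _ _ R ξ J v a V H c₀ hC hM hT D hcom hinv hfi ε hε
  haveI : CharZero K := charZero_of_injective_algebraMap (algebraMap ℂ K).injective
  obtain ⟨m, n, q, A, B, hm, hq, hA, hB, hli, hA0, hvan⟩ :=
    h2 K R ξ J v a V H c₀ hC hM hT D hcom hinv (3 / ε) (by positivity)
  have hqpos : 0 < q := by
    have h4 : 0 < 3 / ε * m := by positivity
    have h5 : (0 : ℝ) < q := lt_of_lt_of_le h4 hq
    exact_mod_cast h5
  -- some word does not vanish
  have hex : ∃ k, ∃ w : List (Fin 2), w.length = k ∧ ∑ l, A l * wd D w (B l) ≠ 0 := by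
    by_contra hcon
    push Not at hcon
    exact hA0 (h3 K ξ D hcom hfi n A B m (fun l => (hB l).2) hli fun w => hcon w.length w rfl)
  obtain ⟨w₀, hw₀, hne₀⟩ := Nat.find_spec hex
  have hmin : ∀ w : List (Fin 2), w.length < Nat.find hex → ∑ l, A l * wd D w (B l) = 0 := by
    intro w hw
    have h4 := Nat.find_min hex hw
    push Not at h4
    exact h4 w rfl
  generalize hk : Nat.find hex = k at hw₀ hmin
  have hqk : q ≤ k := by
    by_contra hcon
    have hcon := lt_of_not_ge hcon
    refine hne₀ ((h1 K D hinv n A B q hvan).1 w₀ ?_)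
    rw [hw₀]
    exact hcon
  have hddk : ∀ i j, i + j < k → ∑ l, A l * dd D i j (B l) = 0 := by
    intro i j hij
    have h4 := hmin (List.replicate i 0 ++ List.replicate j 1) (by
      rw [List.length_append, List.length_replicate, List.length_replicate]
      exact hij)
    rw [← h4]
    exact Finset.sum_congr rfl fun l _ => by rw [dd_eq_wd]
  obtain ⟨-, hJb, hJc⟩ := h1 K D hinv n A B k hddk
  have hcount : w₀.count 0 + w₀.count 1 = k := by
    rw [← hw₀]
    have h4 : ∀ w : List (Fin 2), w.count 0 + w.count 1 = w.length := by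
      intro w
      induction w with
      | nil => rfl
      | cons b w ih =>
        rw [List.count_cons, List.count_cons, List.length_cons, ← ih]
        fin_cases b
        · simp
          omega
        · simp
          omega
    exact h4 w₀
  -- the coefficients
  set c : ℕ → K := fun i => ∑ l, A l * dd D i (k - i) (B l) with hc
  have hcne : c (w₀.count 0) ≠ 0 := by
    have h4 : k - w₀.count 0 = w₀.count 1 := by omega
    rw [hc]
    show ∑ l, A l * dd D (w₀.count 0) (k - w₀.count 0) (B l) ≠ 0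
    rw [h4, ← hJb w₀ hw₀]
    exact hne₀
  have hcξ : ∀ i, ξ (c i) = ((2 * m : ℝ) : ℂ) • c i := by
    intro i
    rw [hc]
    show ξ (∑ l, A l * dd D i (k - i) (B l)) = ((2 * m : ℝ) : ℂ) • ∑ l, A l * dd D i (k - i) (B l)
    rw [map_sum, Finset.smul_sum]
    refine Finset.sum_congr rfl fun l _ => ?_
    have h4 := eig_mul (hA l).2 (eig_dd hcom i (k - i) (hB l).2)
    rw [h4, two_mul]
  set f : Polynomial K := ∑ i ∈ Finset.range (k + 1),
    Polynomial.monomial i ((k.choose i : K) * c i) with hf
  have hcoeff : ∀ i, f.coeff i = if i ∈ Finset.range (k + 1) then (k.choose i : K) * c i else 0 := by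
    intro i
    rw [hf, Polynomial.finset_sum_coeff]
    simp only [Polynomial.coeff_monomial]
    rw [Finset.sum_ite_eq' (Finset.range (k + 1)) i fun j => (k.choose j : K) * c j]
  refine ⟨f, k, 2 * m, lt_of_lt_of_le hqpos hqk, ?_, ?_, ?_, ?_, ?_⟩
  · rw [Polynomial.natDegree_le_iff_coeff_eq_zero]
    intro i hi
    rw [hcoeff, if_neg]
    rw [Finset.mem_range]
    omega
  · intro h4
    have h5 := hcoeff (w₀.count 0)
    have h6 : w₀.count 0 ∈ Finset.range (k + 1) := by
      rw [Finset.mem_range]
      omega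
    rw [h4, Polynomial.coeff_zero, if_pos h6] at h5
    have h7 : (k.choose (w₀.count 0) : K) ≠ 0 := by
      have h8 : k.choose (w₀.count 0) ≠ 0 := (Nat.choose_pos (by omega)).ne'
      exact_mod_cast h8
    exact mul_ne_zero h7 hcne h5.symm
  · intro i
    rw [hcoeff]
    split_ifs with h4
    · have h5 : ((k.choose i : K) * c i) = k.choose i • c i := by
        rw [nsmul_eq_mul]
      rw [h5, map_nsmul, hcξ, smul_comm]
    · rw [map_zero, smul_zero]
  · intro u hu x y hxy
    have h4 : ev f k x y =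
        ∑ l, A l * ((x • D 0 + y • D 1 : Derivation ℂ K K) : K → K)^[k] (B l) := by
      rw [hJc x y]
      unfold ev
      refine Finset.sum_congr rfl fun i hi => ?_
      rw [hcoeff, if_pos hi]
    rw [h4]
    refine u.ge_sum _ _ fun l _ => ?_
    have h5 : ∀ z ∈ R, u.Ge 0 z := by
      intro z hz
      by_cases h6 : z = 0
      · exact Or.inl h6
      · exact Or.inr (hu.nonneg z hz h6)
    have h6 := u.ge_mul (h5 _ (hA l).1) (ge_iter hxy k (h5 _ (hB l).1))
    rwa [add_zero] at h6
  · have h4 : (q : ℝ) ≤ k := by exact_mod_cast hqk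
    have h5 : 3 / ε * m ≤ k := hq.trans h4
    have h6 : 3 * m ≤ ε * k := by
      have h7 := mul_le_mul_of_nonneg_left h5 hε.le
      have h8 : ε * (3 / ε * m) = 3 * m := by
        field_simp
      rwa [h8] at h7
    linarith

end Pool.Agent.Helper12.D4
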