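import Pool.Agent.Helper88.D4.Stmts

/-!
# Project D4: basics on alternating brackets
-/

set_option autoImplicit false

namespace Pool.Agent.Helper12.D4

open Pool.Agent.Helper88.D4

variable {K : Type} [Field K] [Algebra ℂ K] {J : Bra K}

/-! ## moving an argument to the derivation slot -/

/-- slot 1 -/
theorem l1 (h : IsAlt J) (x y z w : K) : J y z w x = -(J x z w y) := by
  rw [h.s1 x y z w, neg_neg]

/-- slot 2 -/
theorem l2 (h : IsAlt J) (x y z w : K) : J y z w x = J x y w z := by
  have e1 : J y z w = -J z y w := by rw [h.s2 y z w, neg_neg]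
  rw [e1, Derivation.neg_apply, l1 h x z y w, neg_neg]

/-- slot 3 -/
theorem l3 (h : IsAlt J) (x y z w : K) : J y z w x = -(J x y z w) := by
  have e1 : J y z w = -J y w z := by rw [h.s3 y z w, neg_neg]
  rw [e1, Derivation.neg_apply, l2 h x y w z]

/-! ## equal arguments -/

theorem char0 (K : Type) [Field K] [Algebra ℂ K] : CharZero K :=
  charZero_of_injective_algebraMap (algebraMap ℂ K).injective

theorem K2 {a : K} (h : a = -a) : a = 0 := by
  haveI : CharZero K := char0 K
  exact self_eq_neg.1 h

theorem z01 (h : IsAlt J) (x z w : K) : J x z w x = 0 := K2 (l1 h x x z w)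

theorem z02 (h : IsAlt J) (x y w : K) : J y x w x = 0 := by
  rw [l2 h x y x w]
  exact z01 h x y w

theorem z03 (h : IsAlt J) (x y z : K) : J y z x x = 0 := by
  rw [l3 h x y z x, z01 h x y z, neg_zero]

theorem z12 (h : IsAlt J) (y w : K) : J y y w = 0 := by
  ext x
  rw [l1 h x y y w, z02 h y x w, neg_zero, Derivation.zero_apply]

theorem z13 (h : IsAlt J) (y z : K) : J y z y = 0 := by
  ext x
  rw [l1 h x y z y, z03 h y x z, neg_zero, Derivation.zero_apply]

theorem z23 (h : IsAlt J) (y z : K) : J y z z = 0 := by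
  ext x
  rw [l2 h x y z z, z03 h z x y, Derivation.zero_apply]

/-! ## slot 1 -/

theorem add1 (h : IsAlt J) (y y' z w : K) : J (y + y') z w = J y z w + J y' z w := by
  ext x
  rw [Derivation.add_apply, l1 h x (y + y'), map_add, l1 h x y, l1 h x y']
  ring

theorem mul1 (h : IsAlt J) (y y' z w : K) : J (y * y') z w = y • J y' z w + y' • J y z w := by
  ext x
  rw [Derivation.add_apply, Derivation.smul_apply, Derivation.smul_apply, l1 h x (y * y'),
    Derivation.leibniz, l1 h x y, l1 h x y']
  simp only [smul_eq_mul]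
  ring

theorem smul1 (h : IsAlt J) (c : ℂ) (y z w : K) : J (c • y) z w = c • J y z w := by
  ext x
  rw [Derivation.smul_apply, l1 h x (c • y), Derivation.map_smul, l1 h x y, smul_neg]

theorem neg1 (h : IsAlt J) (y z w : K) : J (-y) z w = -J y z w := by
  ext x
  rw [Derivation.neg_apply, l1 h x (-y), map_neg, l1 h x y]

theorem sub1 (h : IsAlt J) (y y' z w : K) : J (y - y') z w = J y z w - J y' z w := by
  rw [sub_eq_add_neg, add1 h, neg1 h, ← sub_eq_add_neg]

theorem zero1 (h : IsAlt J) (z w : K) : J 0 z w = 0 := by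
  ext x
  rw [l1 h x 0, map_zero, neg_zero, Derivation.zero_apply]

theorem const1 (h : IsAlt J) (c : ℂ) (z w : K) : J (algebraMap ℂ K c) z w = 0 := by
  ext x
  rw [l1 h x, Derivation.map_algebraMap, neg_zero, Derivation.zero_apply]

theorem one1 (h : IsAlt J) (z w : K) : J 1 z w = 0 := by
  have := const1 h 1 z w
  rwa [map_one] at this

theorem sum1 (h : IsAlt J) {ι : Type*} (s : Finset ι) (f : ι → K) (z w : K) :
    J (∑ i ∈ s, f i) z w = ∑ i ∈ s, J (f i) z w := by
  classical
  induction s using Finset.induction_on with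
  | empty => rw [Finset.sum_empty, Finset.sum_empty, zero1 h]
  | insert a s ha ih => rw [Finset.sum_insert ha, Finset.sum_insert ha, add1 h, ih]

/-! ## slot 2 -/

theorem add2 (h : IsAlt J) (y z z' w : K) : J y (z + z') w = J y z w + J y z' w := by
  ext x
  rw [Derivation.add_apply, l2 h x y (z + z'), map_add, l2 h x y z, l2 h x y z']

theorem mul2 (h : IsAlt J) (y z z' w : K) : J y (z * z') w = z • J y z' w + z' • J y z w := by
  ext x
  rw [Derivation.add_apply, Derivation.smul_apply, Derivation.smul_apply, l2 h x y (z * z'),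
    Derivation.leibniz, l2 h x y z, l2 h x y z']

theorem smul2 (h : IsAlt J) (c : ℂ) (y z w : K) : J y (c • z) w = c • J y z w := by
  ext x
  rw [Derivation.smul_apply, l2 h x y (c • z), Derivation.map_smul, l2 h x y z]

theorem neg2 (h : IsAlt J) (y z w : K) : J y (-z) w = -J y z w := by
  ext x
  rw [Derivation.neg_apply, l2 h x y (-z), map_neg, l2 h x y z]

theorem sub2 (h : IsAlt J) (y z z' w : K) : J y (z - z') w = J y z w - J y z' w := by
  rw [sub_eq_add_neg, add2 h, neg2 h, ← sub_eq_add_neg]

theorem zero2 (h : IsAlt J) (y w : K) : J y 0 w = 0 := by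
  ext x
  rw [l2 h x y 0, map_zero, Derivation.zero_apply]

theorem const2 (h : IsAlt J) (c : ℂ) (y w : K) : J y (algebraMap ℂ K c) w = 0 := by
  ext x
  rw [l2 h x y, Derivation.map_algebraMap, Derivation.zero_apply]

theorem one2 (h : IsAlt J) (y w : K) : J y 1 w = 0 := by
  have := const2 h 1 y w
  rwa [map_one] at this

theorem sum2 (h : IsAlt J) {ι : Type*} (s : Finset ι) (f : ι → K) (y w : K) :
    J y (∑ i ∈ s, f i) w = ∑ i ∈ s, J y (f i) w := by
  classical
  induction s using Finset.induction_on with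
  | empty => rw [Finset.sum_empty, Finset.sum_empty, zero2 h]
  | insert a s ha ih => rw [Finset.sum_insert ha, Finset.sum_insert ha, add2 h, ih]

/-! ## slot 3 -/

theorem add3 (h : IsAlt J) (y z w w' : K) : J y z (w + w') = J y z w + J y z w' := by
  ext x
  rw [Derivation.add_apply, l3 h x y z (w + w'), map_add, l3 h x y z w, l3 h x y z w']
  ring

theorem mul3 (h : IsAlt J) (y z w w' : K) : J y z (w * w') = w • J y z w' + w' • J y z w := by
  ext x
  rw [Derivation.add_apply, Derivation.smul_apply, Derivation.smul_apply, l3 h x y z (w * w'),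
    Derivation.leibniz, l3 h x y z w, l3 h x y z w']
  simp only [smul_eq_mul]
  ring

theorem smul3 (h : IsAlt J) (c : ℂ) (y z w : K) : J y z (c • w) = c • J y z w := by
  ext x
  rw [Derivation.smul_apply, l3 h x y z (c • w), Derivation.map_smul, l3 h x y z w, smul_neg]

theorem neg3 (h : IsAlt J) (y z w : K) : J y z (-w) = -J y z w := by
  ext x
  rw [Derivation.neg_apply, l3 h x y z (-w), map_neg, l3 h x y z w]

theorem sub3 (h : IsAlt J) (y z w w' : K) : J y z (w - w') = J y z w - J y z w' := by
  rw [sub_eq_add_neg, add3 h, neg3 h, ← sub_eq_add_neg]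

theorem zero3 (h : IsAlt J) (y z : K) : J y z 0 = 0 := by
  ext x
  rw [l3 h x y z 0, map_zero, neg_zero, Derivation.zero_apply]

theorem const3 (h : IsAlt J) (c : ℂ) (y z : K) : J y z (algebraMap ℂ K c) = 0 := by
  ext x
  rw [l3 h x y z, Derivation.map_algebraMap, neg_zero, Derivation.zero_apply]

theorem one3 (h : IsAlt J) (y z : K) : J y z 1 = 0 := by
  have := const3 h 1 y z
  rwa [map_one] at this

theorem sum3 (h : IsAlt J) {ι : Type*} (s : Finset ι) (f : ι → K) (y z : K) :
    J y z (∑ i ∈ s, f i) = ∑ i ∈ s, J y z (f i) := by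
  classical
  induction s using Finset.induction_on with
  | empty => rw [Finset.sum_empty, Finset.sum_empty, zero3 h]
  | insert a s ha ih => rw [Finset.sum_insert ha, Finset.sum_insert ha, add3 h, ih]

/-! ## chain rule -/

/-- chain rule for any derivation -/
theorem chain (D : Derivation ℂ K K) {σ : Type*} [Fintype σ] (f : σ → K) (P : MvPolynomial σ ℂ) :
    D (MvPolynomial.aeval f P) =
      ∑ i, MvPolynomial.aeval f (MvPolynomial.pderiv i P) * D (f i) := by
  classical
  induction P using MvPolynomial.induction_on with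
  | C a =>
    rw [← MvPolynomial.algebraMap_eq, AlgHom.commutes, Derivation.map_algebraMap]
    symm
    apply Finset.sum_eq_zero
    intro i _
    rw [Derivation.map_algebraMap, map_zero, zero_mul]
  | add p q hp hq =>
    rw [map_add, map_add, hp, hq, ← Finset.sum_add_distrib]
    apply Finset.sum_congr rfl
    intro i _
    rw [map_add, map_add, add_mul]
  | mul_X p j hp =>
    rw [map_mul, Derivation.leibniz, MvPolynomial.aeval_X, hp]
    have e : ∀ i, MvPolynomial.aeval f (MvPolynomial.pderiv i (p * MvPolynomial.X j)) * D (f i) =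
        f j * (MvPolynomial.aeval f (MvPolynomial.pderiv i p) * D (f i)) +
          (if i = j then MvPolynomial.aeval f p * D (f i) else 0) := by
      intro i
      rw [Derivation.leibniz, MvPolynomial.pderiv_X, smul_eq_mul, smul_eq_mul, map_add, map_mul,
        map_mul, MvPolynomial.aeval_X]
      by_cases hij : i = j
      · subst hij
        rw [Pi.single_eq_same, map_one, if_pos rfl]
        ring
      · rw [Pi.single_eq_of_ne (Ne.symm hij), map_zero, if_neg hij]
        ring
    rw [Finset.sum_congr rfl (fun i _ => e i), Finset.sum_add_distrib, ← Finset.mul_sum,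
      Finset.sum_ite_eq' Finset.univ j, if_pos (Finset.mem_univ j), smul_eq_mul, smul_eq_mul]
    ring

theorem chain0 {σ : Type*} [Fintype σ] (f : σ → K) (P : MvPolynomial σ ℂ)
    (y z w : K) : J y z w (MvPolynomial.aeval f P) =
      ∑ i, MvPolynomial.aeval f (MvPolynomial.pderiv i P) * J y z w (f i) := chain _ f P

theorem chain1 (h : IsAlt J) {σ : Type*} [Fintype σ] (f : σ → K) (P : MvPolynomial σ ℂ)
    (x z w : K) : J (MvPolynomial.aeval f P) z w x =
      ∑ i, MvPolynomial.aeval f (MvPolynomial.pderiv i P) * J (f i) z w x := by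
  rw [l1 h x, chain, ← Finset.sum_neg_distrib]
  apply Finset.sum_congr rfl
  intro i _
  rw [l1 h x (f i)]
  ring

theorem chain2 (h : IsAlt J) {σ : Type*} [Fintype σ] (f : σ → K) (P : MvPolynomial σ ℂ)
    (x y w : K) : J y (MvPolynomial.aeval f P) w x =
      ∑ i, MvPolynomial.aeval f (MvPolynomial.pderiv i P) * J y (f i) w x := by
  rw [l2 h x, chain]
  apply Finset.sum_congr rfl
  intro i _
  rw [l2 h x y (f i)]

theorem chain3 (h : IsAlt J) {σ : Type*} [Fintype σ] (f : σ → K) (P : MvPolynomial σ ℂ)
    (x y z : K) : J y z (MvPolynomial.aeval f P) x =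
      ∑ i, MvPolynomial.aeval f (MvPolynomial.pderiv i P) * J y z (f i) x := by
  rw [l3 h x, chain, ← Finset.sum_neg_distrib]
  apply Finset.sum_congr rfl
  intro i _
  rw [l3 h x y z (f i)]
  ring

/-! ## quotient rule -/

/-- quotient rule for any derivation -/
theorem quot (D : Derivation ℂ K K) (x s : K) (hs : s ≠ 0) :
    D (x / s) = (s * D x - x * D s) / s ^ 2 := by
  have e : x = (x / s) * s := by rw [div_mul_cancel₀ x hs]
  have h1 : D x = (x / s) * D s + s * D (x / s) := by
    conv_lhs => rw [e]
    rw [Derivation.leibniz, smul_eq_mul, smul_eq_mul]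
  rw [eq_div_iff (pow_ne_zero 2 hs), h1]
  field_simp
  ring

theorem quot0 (x s y z w : K) (hs : s ≠ 0) :
    J y z w (x / s) = (s * J y z w x - x * J y z w s) / s ^ 2 := quot _ x s hs

theorem quot1 (h : IsAlt J) (x y s z w : K) (hs : s ≠ 0) :
    J (y / s) z w x = (s * J y z w x - y * J s z w x) / s ^ 2 := by
  rw [l1 h x, quot _ y s hs, l1 h x y, l1 h x s]
  ring

theorem quot2 (h : IsAlt J) (x y z s w : K) (hs : s ≠ 0) :
    J y (z / s) w x = (s * J y z w x - z * J y s w x) / s ^ 2 := by
  rw [l2 h x, quot _ z s hs, l2 h x y z, l2 h x y s]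

theorem quot3 (h : IsAlt J) (x y z w s : K) (hs : s ≠ 0) :
    J y z (w / s) x = (s * J y z w x - w * J y z s x) / s ^ 2 := by
  rw [l3 h x, quot _ w s hs, l3 h x y z w, l3 h x y z s]
  ring

/-! ## tuples -/

/-- `brk J` is a derivation in each argument. -/
theorem brk_update (h : IsAlt J) (f : Fin 4 → K) (i : Fin 4) :
    ∃ D : Derivation ℂ K K, ∀ x, brk J (Function.update f i x) = D x := by
  fin_cases i
  · exact ⟨J (f 1) (f 2) (f 3), fun x => by simp [brk]⟩
  · refine ⟨-J (f 0) (f 2) (f 3), fun x => ?_⟩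
    simp only [brk]
    rw [l1 h, Derivation.neg_apply]
    simp
  · refine ⟨J (f 0) (f 1) (f 3), fun x => ?_⟩
    simp only [brk]
    rw [l2 h]
    simp
  · refine ⟨-J (f 0) (f 1) (f 2), fun x => ?_⟩
    simp only [brk]
    rw [l3 h, Derivation.neg_apply]
    simp

/-- `brk J f = 0` if two arguments are equal. -/
theorem brk_zero (h : IsAlt J) (f : Fin 4 → K) (i j : Fin 4) (hij : i ≠ j) (he : f i = f j) :
    brk J f = 0 := by
  fin_cases i <;> fin_cases j <;> simp only [brk] <;> simp at he hij <;>
    first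
    | (rw [← he]; first | exact z01 h _ _ _ | exact z02 h _ _ _ | exact z03 h _ _ _ |
        (rw [z12 h]; rfl) | (rw [z13 h]; rfl) | (rw [z23 h]; rfl))
    | (rw [he]; first | exact z01 h _ _ _ | exact z02 h _ _ _ | exact z03 h _ _ _ |
        (rw [z12 h]; rfl) | (rw [z13 h]; rfl) | (rw [z23 h]; rfl))

/-- `[x, y, z, w] = J y z w x` -/
theorem brk_apply (x y z w : K) : brk J ![x, y, z, w] = J y z w x := by simp [brk]

end Pool.Agent.Helper12.D4
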